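import Pool.Agent.W253.GPB.BKFin
import Pool.Agent.W844.GP.Defs

/-!
# The van den Berg-Kesten inequality for sums over disjoint sets of vertices
-/

set_option autoImplicit false

open MeasureTheory ProbabilityTheory Set

namespace Pool.Agent.W253.GPB

open Pool.Agent.W844.VG (V)
open Pool.Agent.W844.GP (law)

variable {d : ℕ}

theorem law_map {m : ℕ} (ν : Measure ℝ) [IsProbabilityMeasure ν] (e : Fin m → V d)
    (he : Function.Injective e) :
    (law ν d).map (fun w i => w (e i)) = Measure.pi (fun _ : Fin m => ν) := by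
  have hprob : IsProbabilityMeasure (law ν d) := by
    unfold law
    infer_instance
  have h1 : iIndepFun (fun (x : V d) (w : V d → ℝ) => w x) (law ν d) :=
    iIndepFun_infinitePi (P := fun _ : V d => ν) (X := fun _ x => x) fun _ => measurable_id
  have h2 := h1.precomp he
  have h3 := (iIndepFun_iff_map_fun_eq_pi_map
    (fun i => (measurable_pi_apply (e i)).aemeasurable)).1 h2
  refine h3.trans ?_
  congr 1
  funext i
  exact Measure.infinitePi_map_eval (fun _ : V d => ν) (e i)

theorem bk : Pool.Agent.W844.GP.S_BK := by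
  classical
  intro d ν _ k F a
  set I : Finset (V d) := Finset.univ.biUnion fun j => (F j).biUnion id with hI
  have hsub : ∀ j, ∀ f ∈ F j, f ⊆ I := by
    intro j f hf x hx
    rw [hI, Finset.mem_biUnion]
    exact ⟨j, Finset.mem_univ _, Finset.mem_biUnion.2 ⟨f, hf, hx⟩⟩
  set e : Fin I.card → V d := fun i => (I.equivFin.symm i : V d) with he
  have hinj : Function.Injective e := fun i j hij =>
    I.equivFin.symm.injective (Subtype.ext hij)
  have hran : ∀ x ∈ I, ∃ i, e i = x := by
    intro x hx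
    refine ⟨I.equivFin ⟨x, hx⟩, ?_⟩
    simp [he]
  have hmeas : Measurable fun (w : V d → ℝ) (i : Fin I.card) => w (e i) :=
    measurable_pi_iff.2 fun i => measurable_pi_apply (e i)
  have hmap := law_map ν e hinj
  set pre : Finset (V d) → Finset (Fin I.card) := fun f =>
    Finset.univ.filter fun i => e i ∈ f with hpre
  set G : Fin k → Set (Cert I.card) := fun j =>
    (fun f : Finset (V d) => ((pre f, a j) : Cert I.card)) '' (F j : Set (Finset (V d))) with hG
  have hGfin : ∀ j, (G j).Finite := fun j => (F j).finite_toSet.image _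
  have hsum : ∀ (f : Finset (V d)), f ⊆ I → ∀ w : V d → ℝ,
      ∑ i ∈ pre f, w (e i) = ∑ x ∈ f, w x := by
    intro f hf w
    refine Finset.sum_nbij e ?_ hinj.injOn ?_ fun _ _ => rfl
    · intro i hi
      exact (Finset.mem_filter.1 hi).2
    · intro x hx
      obtain ⟨i, hi⟩ := hran x (hf hx)
      refine ⟨i, ?_, hi⟩
      have : e i ∈ f := by rw [hi]; exact hx
      exact Finset.mem_coe.2 (Finset.mem_filter.2 ⟨Finset.mem_univ _, this⟩)
  have hocc : ∀ j, law ν d {w | ∃ f ∈ F j, a j ≤ ∑ x ∈ f, w x} =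
      Measure.pi (fun _ : Fin I.card => ν) (Occ (G j)) := by
    intro j
    rw [← hmap, Measure.map_apply hmeas (measurableSet_Occ (hGfin j))]
    congr 1
    ext w
    constructor
    · rintro ⟨f, hf, h⟩
      refine ⟨(pre f, a j), ⟨f, hf, rfl⟩, ?_⟩
      show a j ≤ ∑ i ∈ pre f, w (e i)
      rw [hsum f (hsub j f hf) w]
      exact h
    · rintro ⟨_, ⟨f, hf, rfl⟩, h⟩
      refine ⟨f, hf, ?_⟩
      have h' : a j ≤ ∑ i ∈ pre f, w (e i) := h
      rwa [hsum f (hsub j f hf) w] at h'
  have hdis : law ν d {w | ∃ f : Fin k → Finset (V d), (∀ j, f j ∈ F j) ∧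
      (∀ j j', j ≠ j' → Disjoint (f j) (f j')) ∧ ∀ j, a j ≤ ∑ x ∈ f j, w x} ≤
      Measure.pi (fun _ : Fin I.card => ν) (Dis G) := by
    rw [← hmap, Measure.map_apply hmeas (measurableSet_Dis hGfin)]
    refine measure_mono ?_
    rintro w ⟨f, h1, h2, h3⟩
    refine ⟨fun j => (pre (f j), a j), fun j => ⟨f j, h1 j, rfl⟩, fun i j hij => ?_, fun j => ?_⟩
    · show Disjoint (pre (f i)) (pre (f j))
      rw [Finset.disjoint_left]
      intro x hx hx'
      exact Finset.disjoint_left.1 (h2 i j hij) (Finset.mem_filter.1 hx).2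
        (Finset.mem_filter.1 hx').2
    · show a j ≤ ∑ i ∈ pre (f j), w (e i)
      rw [hsum (f j) (hsub j (f j) (h1 j)) w]
      exact h3 j
  calc _ ≤ Measure.pi (fun _ : Fin I.card => ν) (Dis G) := hdis
    _ ≤ ∏ j, Measure.pi (fun _ : Fin I.card => ν) (Occ (G j)) := bk_fin ν _ G hGfin
    _ = ∏ j, law ν d {w | ∃ f ∈ F j, a j ≤ ∑ x ∈ f, w x} := by
      exact Finset.prod_congr rfl fun j _ => (hocc j).symm

end Pool.Agent.W253.GPB
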