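import Mathlib

/-!
# The van den Berg-Kesten inequality for sums over disjoint sets: finite products
-/

set_option autoImplicit false

open MeasureTheory ProbabilityTheory Set

namespace Pool.Agent.W253.GPB

variable {n k : ℕ}

/-- a certificate: a set of coordinates and a threshold -/
abbrev Cert (n : ℕ) : Type := Finset (Fin n) × ℝ

/-- the sum over the set of coordinates is at least the threshold -/
def holds (c : Cert n) (w : Fin n → ℝ) : Prop := c.2 ≤ ∑ x ∈ c.1, w x

/-- some certificate of `G` holds -/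
def Occ (G : Set (Cert n)) : Set (Fin n → ℝ) := {w | ∃ c ∈ G, holds c w}

/-- certificates with disjoint sets of coordinates hold -/
def Dis (F : Fin k → Set (Cert n)) : Set (Fin n → ℝ) :=
  {w | ∃ c : Fin k → Cert n, (∀ j, c j ∈ F j) ∧ (∀ i j, i ≠ j → Disjoint (c i).1 (c j).1) ∧
    ∀ j, holds (c j) w}

open scoped Classical in
/-- the certificate given the value `s` of the first coordinate -/
noncomputable def red (s : ℝ) (c : Cert (n + 1)) : Cert n :=
  (Finset.univ.filter fun i : Fin n => i.succ ∈ c.1, if (0 : Fin (n + 1)) ∈ c.1 then c.2 - s else c.2)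

theorem holds_red (s : ℝ) (c : Cert (n + 1)) (w : Fin n → ℝ) :
    holds (red s c) w ↔ holds c (Fin.cons s w) := by
  classical
  have h1 : ∑ x ∈ c.1, (Fin.cons s w : Fin (n + 1) → ℝ) x =
      (if (0 : Fin (n + 1)) ∈ c.1 then s else 0) +
        ∑ i ∈ Finset.univ.filter (fun i : Fin n => i.succ ∈ c.1), w i := by
    have h2 : ∑ x ∈ c.1, (Fin.cons s w : Fin (n + 1) → ℝ) x =
        ∑ x : Fin (n + 1), if x ∈ c.1 then (Fin.cons s w : Fin (n + 1) → ℝ) x else 0 := by
      rw [← Finset.sum_filter]
      congr 1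
      ext x
      simp
    rw [h2, Fin.sum_univ_succ, Fin.cons_zero, Finset.sum_filter]
    simp only [Fin.cons_succ]
  unfold holds red
  simp only
  rw [h1]
  split_ifs
  · constructor <;> intro h <;> linarith
  · rw [zero_add]

theorem measurableSet_holds (c : Cert n) : MeasurableSet {w : Fin n → ℝ | holds c w} := by
  unfold holds
  exact measurableSet_le measurable_const (by fun_prop)

theorem measurableSet_Occ {G : Set (Cert n)} (hG : G.Finite) : MeasurableSet (Occ G) := by
  have h : Occ G = ⋃ c ∈ G, {w | holds c w} := by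
    ext w
    simp [Occ]
  rw [h]
  exact hG.measurableSet_biUnion fun c _ => measurableSet_holds c

theorem measurableSet_Dis {F : Fin k → Set (Cert n)} (hF : ∀ j, (F j).Finite) :
    MeasurableSet (Dis F) := by
  have h : Dis F = ⋃ c ∈ {c : Fin k → Cert n | ∀ j, c j ∈ F j},
      {w | (∀ i j, i ≠ j → Disjoint (c i).1 (c j).1) ∧ ∀ j, holds (c j) w} := by
    ext w
    simp only [Dis, mem_iUnion, mem_ofPred_eq, exists_prop]
  rw [h]
  have hfin : {c : Fin k → Cert n | ∀ j, c j ∈ F j}.Finite := by
    have := Set.Finite.pi' hF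
    exact this
  refine hfin.measurableSet_biUnion fun c _ => ?_
  by_cases hd : ∀ i j, i ≠ j → Disjoint (c i).1 (c j).1
  · have h2 : {w : Fin n → ℝ | (∀ i j, i ≠ j → Disjoint (c i).1 (c j).1) ∧ ∀ j, holds (c j) w} =
        ⋂ j, {w | holds (c j) w} := by
      ext w
      simp only [mem_ofPred_eq, mem_iInter]
      exact and_iff_right hd
    rw [h2]
    exact MeasurableSet.iInter fun j => measurableSet_holds (c j)
  · have h2 : {w : Fin n → ℝ | (∀ i j, i ≠ j → Disjoint (c i).1 (c j).1) ∧ ∀ j, holds (c j) w} =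
        ∅ := by
      ext w
      simp only [mem_ofPred_eq, mem_empty_iff_false, iff_false]
      exact fun h => hd h.1
    rw [h2]
    exact MeasurableSet.empty

/-- Fubini for the first coordinate -/
theorem pi_succ (ν : Measure ℝ) [IsProbabilityMeasure ν] {A : Set (Fin (n + 1) → ℝ)}
    (hA : MeasurableSet A) : Measure.pi (fun _ : Fin (n + 1) => ν) A =
      (ν.prod (Measure.pi fun _ : Fin n => ν)) {p | (Fin.cons p.1 p.2 : Fin (n + 1) → ℝ) ∈ A} := by
  have h := measurePreserving_piFinSuccAbove (fun _ : Fin (n + 1) => ν) 0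
  have h2 := h.symm.measure_preimage hA.nullMeasurableSet
  rw [← h2]
  congr 1
  ext p
  simp only [mem_preimage, mem_ofPred_eq]
  rw [MeasurableEquiv.piFinSuccAbove_symm_apply]
  have h3 : (Fin.insertNthEquiv (fun _ : Fin (n + 1) => ℝ) 0) p =
      (Fin.cons p.1 p.2 : Fin (n + 1) → ℝ) := by
    funext j
    rw [Fin.insertNthEquiv_apply, Fin.insertNth_zero']
  rw [h3]

theorem red_of_notMem {c : Cert (n + 1)} (h : (0 : Fin (n + 1)) ∉ c.1) (s t : ℝ) :
    red s c = red t c := by
  unfold red
  rw [if_neg h, if_neg h]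

theorem red_mono {c : Cert (n + 1)} {s t : ℝ} (hst : s ≤ t) {w : Fin n → ℝ}
    (h : holds (red s c) w) : holds (red t c) w := by
  unfold holds red at *
  simp only at *
  refine le_trans ?_ h
  split_ifs
  · linarith
  · exact le_rfl

theorem red_disjoint {c c' : Cert (n + 1)} (h : Disjoint c.1 c'.1) (s t : ℝ) :
    Disjoint (red s c).1 (red t c').1 := by
  classical
  unfold red
  simp only
  rw [Finset.disjoint_left] at h ⊢
  intro x hx hx'
  exact h (Finset.mem_filter.1 hx).2 (Finset.mem_filter.1 hx').2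

/-- the values of the first coordinate for which disjoint certificates hold, only the `j`-th one
using the first coordinate -/
def U (F : Fin k → Set (Cert (n + 1))) (w : Fin n → ℝ) (j : Fin k) : Set ℝ :=
  {s | ∃ c : Fin k → Cert (n + 1), (∀ i, c i ∈ F i) ∧
    (∀ i i', i ≠ i' → Disjoint (c i).1 (c i').1) ∧ (∀ i, i ≠ j → (0 : Fin (n + 1)) ∉ (c i).1) ∧
    ∀ i, holds (red s (c i)) w}

theorem U_upper (F : Fin k → Set (Cert (n + 1))) (w : Fin n → ℝ) (j : Fin k) :
    IsUpperSet (U F w j) := by
  rintro s t hst ⟨c, h1, h2, h3, h4⟩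
  exact ⟨c, h1, h2, h3, fun i => red_mono hst (h4 i)⟩

theorem site (ν : Measure ℝ) [IsProbabilityMeasure ν] (F : Fin k → Set (Cert (n + 1)))
    (hk : 0 < k) (w : Fin n → ℝ) :
    ν {s | (Fin.cons s w : Fin (n + 1) → ℝ) ∈ Dis F} ≤
      Measure.pi (fun _ : Fin k => ν) {t | w ∈ Dis (fun j => red (t j) '' F j)} := by
  classical
  have hne : Nonempty (Fin k) := ⟨⟨0, hk⟩⟩
  have hdir : Directed (· ⊆ ·) (U F w) := by
    intro i j
    rcases (U_upper F w i).total (U_upper F w j) with h | h
    · exact ⟨j, h, Subset.rfl⟩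
    · exact ⟨i, Subset.rfl, h⟩
  obtain ⟨z, hz⟩ := hdir.finite_le (id : Fin k → Fin k)
  have h1 : {s | (Fin.cons s w : Fin (n + 1) → ℝ) ∈ Dis F} ⊆ U F w z := by
    rintro s ⟨c, hc1, hc2, hc3⟩
    have hc4 : ∀ i, holds (red s (c i)) w := fun i => (holds_red s (c i) w).2 (hc3 i)
    by_cases h : ∃ j, (0 : Fin (n + 1)) ∈ (c j).1
    · obtain ⟨j, hj⟩ := h
      refine hz j ⟨c, hc1, hc2, fun i hi h0 => ?_, hc4⟩
      exact Finset.disjoint_left.1 (hc2 i j hi) h0 hj
    · push Not at h
      exact hz z ⟨c, hc1, hc2, fun i _ => h i, hc4⟩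
  have hmeas : MeasurableSet (U F w z) := (U_upper F w z).ordConnected.measurableSet
  have h2 := (measurePreserving_eval (fun _ : Fin k => ν) z).measure_preimage
    hmeas.nullMeasurableSet
  refine (measure_mono h1).trans (h2.symm.le.trans (measure_mono ?_))
  rintro t ⟨c, hc1, hc2, hc3, hc4⟩
  refine ⟨fun i => red (t i) (c i), fun i => ⟨c i, hc1 i, rfl⟩,
    fun i j hij => red_disjoint (hc2 i j hij) _ _, fun i => ?_⟩
  by_cases hi : i = z
  · subst hi
    exact hc4 i
  · show holds (red (t i) (c i)) w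
    rw [red_of_notMem (hc3 i hi) (t i) (Function.eval z t)]
    exact hc4 i

theorem measurableSet_joint (F : Fin k → Set (Cert (n + 1))) (hF : ∀ j, (F j).Finite) :
    MeasurableSet {p : (Fin n → ℝ) × (Fin k → ℝ) | p.1 ∈ Dis (fun j => red (p.2 j) '' F j)} := by
  classical
  have h : {p : (Fin n → ℝ) × (Fin k → ℝ) | p.1 ∈ Dis (fun j => red (p.2 j) '' F j)} =
      ⋃ c ∈ {c : Fin k → Cert (n + 1) | ∀ j, c j ∈ F j},
        {p | (∀ i j, i ≠ j → Disjoint (red 0 (c i)).1 (red 0 (c j)).1) ∧
          ∀ j, holds (red (p.2 j) (c j)) p.1} := by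
    ext p
    simp only [Dis, mem_iUnion, mem_ofPred_eq, exists_prop]
    constructor
    · rintro ⟨c', h1, h2, h3⟩
      choose c hc1 hc2 using h1
      refine ⟨c, hc1, fun i j hij => ?_, fun j => ?_⟩
      · have h4 := h2 i j hij
        rw [← hc2 i, ← hc2 j] at h4
        exact h4
      · have h4 := h3 j
        rwa [← hc2 j] at h4
    · rintro ⟨c, hc1, h2, h3⟩
      exact ⟨fun j => red (p.2 j) (c j), fun j => ⟨c j, hc1 j, rfl⟩, fun i j hij => h2 i j hij, h3⟩
  rw [h]
  have hfin : {c : Fin k → Cert (n + 1) | ∀ j, c j ∈ F j}.Finite := Set.Finite.pi' hF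
  refine hfin.measurableSet_biUnion fun c _ => ?_
  have h5 : ∀ j : Fin k, MeasurableSet {p : (Fin n → ℝ) × (Fin k → ℝ) |
      holds (red (p.2 j) (c j)) p.1} := by
    intro j
    unfold holds red
    simp only
    by_cases h0 : (0 : Fin (n + 1)) ∈ (c j).1
    · simp only [h0, if_true]
      exact measurableSet_le (by fun_prop) (by fun_prop)
    · simp only [h0, if_false]
      exact measurableSet_le (by fun_prop) (by fun_prop)
  by_cases hd : ∀ i j, i ≠ j → Disjoint (red 0 (c i)).1 (red 0 (c j)).1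
  · have h2 : {p : (Fin n → ℝ) × (Fin k → ℝ) |
        (∀ i j, i ≠ j → Disjoint (red 0 (c i)).1 (red 0 (c j)).1) ∧
          ∀ j, holds (red (p.2 j) (c j)) p.1} =
        ⋂ j, {p | holds (red (p.2 j) (c j)) p.1} := by
      ext p
      simp only [mem_ofPred_eq, mem_iInter]
      exact and_iff_right hd
    rw [h2]
    exact MeasurableSet.iInter h5
  · have h2 : {p : (Fin n → ℝ) × (Fin k → ℝ) |
        (∀ i j, i ≠ j → Disjoint (red 0 (c i)).1 (red 0 (c j)).1) ∧
          ∀ j, holds (red (p.2 j) (c j)) p.1} = ∅ := by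
      ext p
      simp only [mem_ofPred_eq, mem_empty_iff_false, iff_false]
      exact fun h => hd h.1
    rw [h2]
    exact MeasurableSet.empty

theorem lintegral_pi_prod (ν : Measure ℝ) [IsProbabilityMeasure ν] (g : Fin k → ℝ → ENNReal)
    (hg : ∀ j, Measurable (g j)) :
    ∫⁻ t, ∏ j, g j (t j) ∂(Measure.pi fun _ : Fin k => ν) = ∏ j, ∫⁻ s, g j s ∂ν := by
  have hind : iIndepFun (fun (j : Fin k) (t : Fin k → ℝ) => g j (t j))
      (Measure.pi fun _ : Fin k => ν) :=
    iIndepFun_pi (X := fun j x => g j x) fun j => (hg j).aemeasurable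
  have h := lintegral_prod_eq_prod_lintegral_of_indepFun Finset.univ
    (fun (j : Fin k) (t : Fin k → ℝ) => g j (t j)) hind
    fun j => (hg j).comp (measurable_pi_apply j)
  rw [h]
  refine Finset.prod_congr rfl fun j _ => ?_
  have hev := measurePreserving_eval (fun _ : Fin k => ν) j
  exact hev.lintegral_comp (hg j)

theorem bk_fin (ν : Measure ℝ) [IsProbabilityMeasure ν] : ∀ (n : ℕ)
    (F : Fin k → Set (Cert n)), (∀ j, (F j).Finite) →
    Measure.pi (fun _ : Fin n => ν) (Dis F) ≤
      ∏ j, Measure.pi (fun _ : Fin n => ν) (Occ (F j)) := by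
  classical
  intro n
  rcases Nat.eq_zero_or_pos k with hk | hk
  · subst hk
    intro F _
    rw [Finset.univ_eq_empty, Finset.prod_empty]
    exact prob_le_one
  induction n with
  | zero =>
    intro F _
    by_cases h : ∀ j, ∃ c ∈ F j, holds c (fun i : Fin 0 => i.elim0)
    · have h1 : ∀ j, Occ (F j) = univ := by
        intro j
        ext w
        simp only [mem_univ, iff_true]
        have hw : w = fun i : Fin 0 => i.elim0 := Subsingleton.elim _ _
        rw [hw]
        exact h j
      simp only [h1, measure_univ, Finset.prod_const_one]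
      exact prob_le_one
    · push Not at h
      obtain ⟨j, hj⟩ := h
      have h1 : Dis F = ∅ := by
        ext w
        simp only [mem_empty_iff_false, iff_false]
        rintro ⟨c, hc1, -, hc3⟩
        have hw : w = fun i : Fin 0 => i.elim0 := Subsingleton.elim _ _
        rw [hw] at hc3
        exact hj (c j) (hc1 j) (hc3 j)
      rw [h1, measure_empty]
      exact bot_le
  | succ n ih =>
    intro F hF
    have hocc : ∀ (j : Fin k) (s : ℝ), Occ (red s '' F j) =
        {w | (Fin.cons s w : Fin (n + 1) → ℝ) ∈ Occ (F j)} := by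
      intro j s
      ext w
      constructor
      · rintro ⟨_, ⟨c, hc, rfl⟩, h⟩
        exact ⟨c, hc, (holds_red s c w).1 h⟩
      · rintro ⟨c, hc, h⟩
        exact ⟨red s c, ⟨c, hc, rfl⟩, (holds_red s c w).2 h⟩
    have hcons : Measurable fun p : ℝ × (Fin n → ℝ) => (Fin.cons p.1 p.2 : Fin (n + 1) → ℝ) := by
      refine measurable_pi_iff.2 fun i => ?_
      refine Fin.cases ?_ (fun i => ?_) i
      · simp only [Fin.cons_zero]
        exact measurable_fst
      · simp only [Fin.cons_succ]
        exact (measurable_pi_apply i).comp measurable_snd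
    set P : Measure (Fin n → ℝ) := Measure.pi fun _ : Fin n => ν with hP
    set Q : Measure (Fin k → ℝ) := Measure.pi fun _ : Fin k => ν with hQ
    have hDm := measurableSet_Dis hF
    have hJ := measurableSet_joint F hF
    calc Measure.pi (fun _ : Fin (n + 1) => ν) (Dis F)
        = (ν.prod P) {p | (Fin.cons p.1 p.2 : Fin (n + 1) → ℝ) ∈ Dis F} := pi_succ ν hDm
      _ = ∫⁻ w, ν {s | (Fin.cons s w : Fin (n + 1) → ℝ) ∈ Dis F} ∂P := by
          have hset : MeasurableSet {p : ℝ × (Fin n → ℝ) |
              (Fin.cons p.1 p.2 : Fin (n + 1) → ℝ) ∈ Dis F} := hcons hDm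
          rw [Measure.prod_apply_symm hset]
          rfl
      _ ≤ ∫⁻ w, Q {t | w ∈ Dis (fun j => red (t j) '' F j)} ∂P :=
          lintegral_mono fun w => site ν F hk w
      _ = (P.prod Q) {p | p.1 ∈ Dis (fun j => red (p.2 j) '' F j)} := by
          rw [Measure.prod_apply hJ]
          rfl
      _ = ∫⁻ t, P (Dis (fun j => red (t j) '' F j)) ∂Q := by
          rw [Measure.prod_apply_symm hJ]
          rfl
      _ ≤ ∫⁻ t, ∏ j, P (Occ (red (t j) '' F j)) ∂Q :=
          lintegral_mono fun t => ih _ fun j => (hF j).image _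
      _ = ∏ j, ∫⁻ s, P (Occ (red s '' F j)) ∂ν := by
          refine lintegral_pi_prod ν (fun j s => P (Occ (red s '' F j))) fun j => ?_
          simp only [hocc]
          exact measurable_measure_prodMk_left (hcons (measurableSet_Occ (hF j)))
      _ = ∏ j, Measure.pi (fun _ : Fin (n + 1) => ν) (Occ (F j)) := by
          refine Finset.prod_congr rfl fun j _ => ?_
          have hset : MeasurableSet {p : ℝ × (Fin n → ℝ) |
              (Fin.cons p.1 p.2 : Fin (n + 1) → ℝ) ∈ Occ (F j)} :=
            hcons (measurableSet_Occ (hF j))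
          rw [pi_succ ν (measurableSet_Occ (hF j)), Measure.prod_apply hset]
          simp only [hocc]
          rfl

end Pool.Agent.W253.GPB
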